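import Mathlib
import Pool.Agent.Helper11.ZO.TateThm
import Pool.Agent.Helper13.ZO.Avg

/-!
# Poincaré duality on the Tate classes on symmetric powers
-/

universe u v w

open CategoryTheory Finset

namespace Pool.Agent.Helper59.ZO

open Pool.Agent.Helper10 Pool.Agent.Helper11 SmProjVar

section Fitting

variable {K : Type*} [Field K] {M : Type*} [AddCommGroup M] [Module K M] [Module.Finite K M]

/-- Fitting's lemma on a stable subspace -/
lemma exists_fitting (g : Module.End K M) (S : Submodule K M) (hS : ∀ x ∈ S, g x ∈ S) {w : M}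
    (hw : w ∈ S) (N : ℕ) : ∃ m, N ≤ m ∧ ∃ a ∈ S, ∃ c, (g ^ m) a = 0 ∧ w = a + (g ^ m) c := by
  let gS : Module.End K S := g.restrict hS
  have hcoe : ∀ (m : ℕ) (x : S), (((gS ^ m) x : S) : M) = (g ^ m) (x : M) := by
    intro m
    induction m with
    | zero => intro x; rfl
    | succ m ih =>
      intro x
      rw [pow_succ, pow_succ, Module.End.mul_apply, Module.End.mul_apply, ih]
      rfl
  obtain ⟨m, hm, hm'⟩ := (gS.eventually_isCompl_ker_pow_range_pow.and
    (Filter.eventually_ge_atTop N)).exists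
  have h1 : (⟨w, hw⟩ : S) ∈ LinearMap.ker (gS ^ m) ⊔ LinearMap.range (gS ^ m) := by
    rw [hm.sup_eq_top]
    exact Submodule.mem_top
  obtain ⟨a, ha, b, ⟨c, rfl⟩, hab⟩ := Submodule.mem_sup.mp h1
  refine ⟨m, hm', a, a.2, c, ?_, ?_⟩
  · rw [← hcoe, LinearMap.mem_ker.mp ha]
    rfl
  · rw [← hcoe]
    exact (congrArg (Subtype.val : S → M) hab).symm

end Fitting

variable {k : Type u} [Field k] [Finite k] {K : Type v} [Field K] [CharZero K]
  (W : WeilCohomology.{u, v, w} k K)

/-- Frobenius as a linear map -/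
noncomputable def frL (Y : SmProjVar k) : Module.End K (W.H Y) :=
  (W.pullA (frob Y)).toLinearMap

/-- Frobenius minus a scalar -/
noncomputable def frS (Y : SmProjVar k) (a : K) : Module.End K (W.H Y) := frL W Y - a • 1

lemma frS_apply (Y : SmProjVar k) (a : K) (x : W.H Y) :
    frS W Y a x = W.pullA (frob Y) x - a • x := rfl

lemma isTate_iff {Y : SmProjVar k} {j : ℕ} {x : W.H Y} :
    IsTate W.toCohomologyData Y j x ↔
      x ∈ W.gr Y (2 * j) ∧ ∃ N : ℕ, (frS W Y ((Nat.card k : K) ^ j) ^ N) x = 0 := by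
  have h : ∀ N : ℕ, (frS W Y ((Nat.card k : K) ^ j) ^ N) x =
      (fun y => W.pull (frob Y) y - (Nat.card k : K) ^ j • y)^[N] x := fun N => by
    rw [Module.End.pow_apply]
    rfl
  simp only [h]
  rfl

lemma commute_frL_frS (Y : SmProjVar k) (a : K) : Commute (frL W Y) (frS W Y a) :=
  (Commute.refl _).sub_right ((Commute.one_right _).smul_right a)

/-- the adjoint of Frobenius -/
lemma trL_mul_frS_pow {Y : SmProjVar k} {j : ℕ} (hj : j ≤ Y.dim) (N : ℕ) :
    ∀ y c : W.H Y, (frS W Y ((Nat.card k : K) ^ j) ^ N) y = 0 →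
      W.trL Y (y * (frS W Y ((Nat.card k : K) ^ (Y.dim - j)) ^ N) c) = 0 := by
  induction N with
  | zero =>
    intro y c hy
    have h0 : y = 0 := hy
    rw [h0, zero_mul, map_zero]
  | succ N ih =>
    intro y c hy
    have hc : (frS W Y ((Nat.card k : K) ^ (Y.dim - j)) ^ (N + 1)) c =
        frS W Y ((Nat.card k : K) ^ (Y.dim - j))
          ((frS W Y ((Nat.card k : K) ^ (Y.dim - j)) ^ N) c) := by
      rw [pow_succ', Module.End.mul_apply]
    have hcomm : (frS W Y ((Nat.card k : K) ^ (Y.dim - j)) ^ N) (W.pullA (frob Y) c) =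
        W.pullA (frob Y) ((frS W Y ((Nat.card k : K) ^ (Y.dim - j)) ^ N) c) := by
      have h1 := LinearMap.congr_fun ((commute_frL_frS W Y
        ((Nat.card k : K) ^ (Y.dim - j))).pow_right N).eq c
      exact h1.symm
    have h2 := ih (frS W Y ((Nat.card k : K) ^ j) y) (W.pullA (frob Y) c) (by
      rw [pow_succ, Module.End.mul_apply] at hy
      exact hy)
    rw [hcomm] at h2
    rw [hc, frS_apply]
    set c' := (frS W Y ((Nat.card k : K) ^ (Y.dim - j)) ^ N) c with hc'
    rw [frS_apply, sub_mul, map_sub, smul_mul_assoc, map_smul, smul_eq_mul, sub_eq_zero] at h2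
    have h3 := Zt.tr_frob W Y (y * c')
    rw [map_mul (W.pullA (frob Y)), h2] at h3
    have hq : (Nat.card k : K) ^ j ≠ 0 := pow_ne_zero _ Zt.card_ne_zero'
    have h4 : (Nat.card k : K) ^ Y.dim = (Nat.card k : K) ^ j * (Nat.card k : K) ^ (Y.dim - j) := by
      rw [← pow_add]
      congr 1
      omega
    rw [h4, mul_assoc] at h3
    have h5 := mul_left_cancel₀ hq h3
    rw [mul_sub, map_sub, mul_smul_comm, map_smul, smul_eq_mul, h5, sub_self]

lemma isTate_zero (Y : SmProjVar k) (j : ℕ) : IsTate W.toCohomologyData Y j (0 : W.H Y) :=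
  (isTate_iff W).mpr ⟨Submodule.zero_mem _, 0, rfl⟩

lemma isTate_add {Y : SmProjVar k} {j : ℕ} {x y : W.H Y} (hx : IsTate W.toCohomologyData Y j x)
    (hy : IsTate W.toCohomologyData Y j y) : IsTate W.toCohomologyData Y j (x + y) := by
  obtain ⟨hx1, N, hN⟩ := (isTate_iff W).mp hx
  obtain ⟨hy1, N', hN'⟩ := (isTate_iff W).mp hy
  refine (isTate_iff W).mpr ⟨Submodule.add_mem _ hx1 hy1, N + N', ?_⟩
  rw [map_add, pow_add, Module.End.mul_apply, Module.End.mul_apply, hN', map_zero, add_zero,
    ← Module.End.mul_apply, ← pow_add, add_comm N, pow_add, Module.End.mul_apply, hN, map_zero]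

lemma isTate_smul {Y : SmProjVar k} {j : ℕ} {x : W.H Y} (a : K)
    (hx : IsTate W.toCohomologyData Y j x) : IsTate W.toCohomologyData Y j (a • x) := by
  obtain ⟨hx1, N, hN⟩ := (isTate_iff W).mp hx
  exact (isTate_iff W).mpr ⟨Submodule.smul_mem _ _ hx1, N, by rw [map_smul, hN, smul_zero]⟩

lemma isTate_pull {Y : SmProjVar k} {j : ℕ} {x : W.H Y} (f : Y.toOver ⟶ Y.toOver)
    (hx : IsTate W.toCohomologyData Y j x) : IsTate W.toCohomologyData Y j (W.pullA f x) := by
  obtain ⟨hx1, N, hN⟩ := (isTate_iff W).mp hx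
  refine (isTate_iff W).mpr ⟨(W.pull_hom f).map_mem _ _ hx1, N, ?_⟩
  have h1 : Commute (W.pullA f).toLinearMap (frL W Y) := by
    refine LinearMap.ext fun y => ?_
    have e1 := W.pull_comp (frob Y) f y
    have e2 := W.pull_comp f (frob Y) y
    rw [frob_comp] at e1
    exact e2.symm.trans e1
  have h2 : Commute (W.pullA f).toLinearMap (frS W Y ((Nat.card k : K) ^ j)) :=
    h1.sub_right ((Commute.one_right _).smul_right _)
  have h3 := LinearMap.congr_fun (h2.pow_right N).eq x
  rw [Module.End.mul_apply, Module.End.mul_apply, hN, map_zero] at h3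
  exact h3.symm

/-- the Tate classes form a subspace -/
def tateSub (Y : SmProjVar k) (j : ℕ) : Submodule K (W.H Y) where
  carrier := {x | IsTate W.toCohomologyData Y j x}
  zero_mem' := isTate_zero W Y j
  add_mem' := isTate_add W
  smul_mem' a _ hx := isTate_smul W a hx

omit [Finite k] in
lemma symInvariant_of_zero (X : SmProjVar k) (n : ℕ) :
    SymInvariant W.toCohomologyData X n (0 : W.H (X.selfProd n)) :=
  fun f _ => map_zero (W.pullA f)

/-- the homogeneous components of combinations of Tate classes -/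
lemma exists_tate_parts {X : SmProjVar k} {n : ℕ} {y : W.H (X.selfProd n)}
    (hy : y ∈ tateSpan W.toCohomologyData X n) :
    ∃ t : ℕ → W.H (X.selfProd n), (∀ j, SymInvariant W.toCohomologyData X n (t j) ∧
      IsTate W.toCohomologyData _ j (t j)) ∧ y = ∑ j ∈ range ((X.selfProd n).dim + 1), t j := by
  unfold tateSpan at hy
  induction hy using Submodule.span_induction with
  | mem y hy =>
    obtain ⟨hs, j, hj⟩ := hy
    refine ⟨fun i => if i = j then y else 0, fun i => ?_, ?_⟩
    · by_cases h : i = j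
      · subst h
        simp only [if_true]
        exact ⟨hs, hj⟩
      · simp only [h, if_false]
        exact ⟨symInvariant_of_zero W X n, isTate_zero W _ i⟩
    · rw [sum_ite_eq' (range ((X.selfProd n).dim + 1)) j fun _ => y]
      split_ifs with h
      · rfl
      · have h1 := hj.1
        rw [mem_range, not_lt] at h
        have h2 : W.toCohomologyData.gr (X.selfProd n) (2 * j) = ⊥ :=
          (W.graded (X.selfProd n)).eq_bot (2 * j) (by omega)
        rw [h2] at h1
        exact (Submodule.mem_bot K).mp h1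
  | zero =>
    exact ⟨fun _ => 0, fun j => ⟨symInvariant_of_zero W X n, isTate_zero W _ j⟩, by
      rw [sum_const_zero]⟩
  | add a a' _ _ ha ha' =>
    obtain ⟨t, ht, rfl⟩ := ha
    obtain ⟨t', ht', rfl⟩ := ha'
    refine ⟨fun j => t j + t' j, fun j => ⟨fun f hf => ?_, isTate_add W (ht j).2 (ht' j).2⟩, by
      rw [sum_add_distrib]⟩
    refine (map_add (W.pullA f) (t j) (t' j)).trans ?_
    exact congrArg₂ (· + ·) ((ht j).1 f hf) ((ht' j).1 f hf)
  | smul a x _ hx =>
    obtain ⟨t, ht, rfl⟩ := hx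
    refine ⟨fun j => a • t j, fun j => ⟨fun f hf => ?_, isTate_smul W a (ht j).2⟩, by
      rw [smul_sum]⟩
    refine (map_smul (W.pullA f) a (t j)).trans ?_
    exact congrArg (a • ·) ((ht j).1 f hf)

/-- (T2) **The pairing is perfect on the Tate classes on a symmetric power.** -/
theorem tateSpan_nondeg (X : SmProjVar k) (n : ℕ) {y : W.H (X.selfProd n)}
    (hy : y ∈ tateSpan W.toCohomologyData X n)
    (h : ∀ v ∈ tateSpan W.toCohomologyData X n, W.trL (X.selfProd n) (y * v) = 0) : y = 0 := by
  have hfin : Module.Finite K (W.H (X.selfProd n)) := (W.graded _).finite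
  obtain ⟨t, ht, rfl⟩ := exists_tate_parts W hy
  refine sum_eq_zero fun j hj => (W.trace _).nondegenerate _ fun w => ?_
  refine W.gr_induction _ (p := fun w => W.trL (X.selfProd n) (t j * w) = 0)
    (fun i w hw => ?_) ?_ ?_ w
  · by_cases hi : 2 * j + i = 2 * (X.selfProd n).dim
    · have hjD : j ≤ (X.selfProd n).dim := by omega
      obtain rfl : i = 2 * ((X.selfProd n).dim - j) := by omega
      obtain ⟨htj, N, hN⟩ := (isTate_iff W).mp (ht j).2
      obtain ⟨m, hm, a, ha, c, ha0, rfl⟩ := exists_fitting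
        (frS W (X.selfProd n) ((Nat.card k : K) ^ ((X.selfProd n).dim - j)))
        (W.gr (X.selfProd n) (2 * ((X.selfProd n).dim - j)))
        (fun x hx => Submodule.sub_mem _ ((W.pull_hom _).map_mem _ _ hx)
          (Submodule.smul_mem _ _ hx)) hw N
      have hc : W.trL (X.selfProd n) (t j * (frS W (X.selfProd n)
          ((Nat.card k : K) ^ ((X.selfProd n).dim - j)) ^ m) c) = 0 := by
        refine trL_mul_frS_pow W hjD m _ _ ?_
        obtain ⟨l, rfl⟩ := Nat.exists_eq_add_of_le hm
        rw [add_comm, pow_add, Module.End.mul_apply, hN, map_zero]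
      have haT : IsTate W.toCohomologyData _ ((X.selfProd n).dim - j) a :=
        (isTate_iff W).mpr ⟨ha, m, ha0⟩
      have hav : avg W X n a ∈ tateSub W (X.selfProd n) ((X.selfProd n).dim - j) :=
        avg_mem W fun f _ => isTate_pull W f haT
      have h1 := h (avg W X n a) (Submodule.subset_span
        ⟨symInvariant_avg W X n a, (X.selfProd n).dim - j, hav⟩)
      rw [sum_mul, map_sum, sum_eq_single_of_mem j hj, trL_mul_avg W (ht j).1] at h1
      · rw [mul_add, map_add, h1, hc, add_zero]
      · intro i _ hij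
        refine W.tr_eq_zero_of_gr _ (i := 2 * i + 2 * ((X.selfProd n).dim - j)) (by omega) ?_
        exact (W.graded _).mul_mem _ _ _ _ (ht i).2.1 hav.1
    · exact W.tr_eq_zero_of_gr _ hi ((W.graded _).mul_mem _ _ _ _ (ht j).2.1 hw)
  · rw [mul_zero, map_zero]
  · intro a b ha hb
    rw [mul_add, map_add, ha, hb, add_zero]

end Pool.Agent.Helper59.ZO
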